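import Mathlib
import Pool.Agent.TH115.GD.Defs
import Pool.Agent.R939.EI.Den2
import Pool.Agent.Helper70K9.F5.Cov
import Pool.Agent.Helper70K9.F5.Alm

/-!
# The Tate conjecture at 5 for almost all elliptic surfaces with a section of order five

Let `k` be a number field, `K = k(t)`, `F = k'(t)` with `k'` a separable closure of `k`. The elliptic
curves over `K` with a point of order five are

  `E_b : y² + (1 - b) x y - b y = x³ - b x²`,  `b = β / γ`,

with coprime polynomials `β`, `γ`; the point is `(0, 0)` and the discriminant is
`b⁵ (b² - 11 b - 1)`. If `m` is the degree, the geometric genus of the elliptic surface over the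
projective line with generic fibre `E_b` is `m - 1`, and the surface is geometrically simply
connected. `TateAt 5` says that all the classes in `V₅ Sel(E_b / F)` which are fixed by the Galois
group of `k` come from `E_b(K)`: the Tate conjecture for divisors at the prime 5 on this surface.

Fix `m ≥ 3`, not divisible by five. Let `β`, `γ` of degree at most `m` run through the polynomials
whose coefficients are integers of `k` with coordinates between `-H` and `H`.

Theorem. For all `(β, γ)`, with the exception of a proportion which tends to zero if `H` tends to
infinity, the Tate conjecture at 5 holds for the pullbacks of `E_b` by `t ↦ h(t)`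
(1) for ALL polynomials `h` over `k` of degree prime to ten such that `β(h(t))` and `γ(h(t))` are
irreducible over `k` and `β(h(t)) - e γ(h(t))` is irreducible over `k(e)` for the roots `e` of
`X² - 11 X - 1`;
(2) for all `h = tᴹ` with `M` prime to ten (with one exceptional set for all `M` at once).

Proof. The criterion of `MP_89bcae_ag.FiveTorsionSection` needs that `β`, `γ`, `β - e γ` are
irreducible over `k(ζ)` with `ζ` of order five; `k(ζ)` is reached by at most two quadratic steps, and a
polynomial `f(h)`, `h` of odd degree, which is irreducible over a field stays irreducible over a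
quadratic extension, if the root field of `f` contains no quadratic extension of the base (the root
field of `f(h)` has odd degree over the one of `f`). The three conditions (irreducible, no
quadratic subfield, the root is not an `ℓ`-th power for the primes `ℓ ≠ 2`) hold for almost all
polynomials of degree `m`, hence for almost all pairs: `β - e γ` over `k(e)` is either a generic
polynomial with twice as many coordinates or a linear combination of generic polynomials.
-/

namespace Pool.Agent.Results.MP_1bad5e_ag.AlmostAllFiveTorsion

open Polynomial NumberField Pool.Agent.TH115.GD Pool.Agent.R939.EI Pool.Agent.Helper70K9.F5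

theorem result {k k' K F : Type} [Field k] [NumberField k] [Field k'] [Algebra k k'] [Field K]
    [Algebra k[X] K] [Field F] [Algebra k'[X] F] [IsFractionRing k'[X] F] [Algebra K F]
    (hT : IsTower k k' K F) {J : Type} [Fintype J] (B : Module.Basis J ℤ (𝓞 k)) {m : ℕ}
    (hm : 3 ≤ m) (h5 : ¬ 5 ∣ m) {η : ℝ} (hη : 0 < η) :
    ∃ H0 : ℕ, ∀ H : ℕ, H0 ≤ H →
      (({x : (Fin (m + 1) → 𝓞 k) × (Fin (m + 1) → 𝓞 k) |
        ((∀ j t, |B.repr (x.1 j) t| ≤ (H : ℤ)) ∧ ∀ j t, |B.repr (x.2 j) t| ≤ (H : ℤ)) ∧
        ¬ TateCovers5 k' K F (polA fun j => algebraMap (𝓞 k) k (x.1 j))
          (polA fun j => algebraMap (𝓞 k) k (x.2 j))}.ncard : ℕ) : ℝ) ≤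
        η * (2 * H + 1) ^ (Fintype.card J * (2 * (m + 1))) :=
  almost_five hT B hm h5 hη

end Pool.Agent.Results.MP_1bad5e_ag.AlmostAllFiveTorsion
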