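import Mathlib
import Pool.Agent.TH115.GD.Defs
import Pool.Agent.R939.EI.Den2
import Pool.Agent.Helper70K9.TN.StmR
import Pool.Agent.Helper70K9.TN.Main2

/-!
# The Tate conjecture at 3 for almost all surfaces of a family with a section of infinite order

Let `k` be a number field, `K = k(t)`, `F = k'(t)` with `k'` a separable closure of `k`. The elliptic
curve over `K`

  `E : y² + a x y + b y = x³`,  `b = p q`,  `q = p - g³ - a g`

with polynomials `a`, `p`, `g` has the point `(0, 0)` of order three and the point `P = (p g, p g³)`.
Put `Δ = a³ - 27 b`. `TateAt 3` says that all the classes in `V₃ Sel(E / F)` which are fixed by the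
Galois group of `k` come from `E(K)`: the Tate conjecture for divisors at the prime 3 on the elliptic
surface over the projective line with generic fibre `E`, which is geometrically simply connected.

Fix `r ≥ 2`, `m ≥ 1`, `m ≠ 3` and `n ≥ 0` with `m + max (m, 3 n, r + n) ≤ 3 r` (so `deg b ≤ 3 r`). Let `a`, `p`,
`g` of degrees at most `r`, `m`, `n` run through the polynomials whose coefficients are integers of `k`
with coordinates between `-H` and `H`.

Theorem. For all `(a, p, g)`, with the exception of a proportion which tends to zero if `H` tends to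
infinity, the following holds.
(1) For ALL polynomials `h` over `k` of degree prime to three (and odd, if `k` does not contain the
primitive cube roots of unity) such that `p(h(t))`, `q(h(t))` and `Δ(h(t))` are irreducible, the Tate
conjecture at 3 holds for the pullback of `E` by `t ↦ h(t)`, and the pullback of `P` has infinite order.
(2) There is an `N ≠ 0` such that this holds for all `h = tᴹ` with `M` prime to `N`.

So there is a non-trivial invariant class, it is algebraic, and it is the only one up to multiples and
the trivial ones, for almost all members and for their covers of unbounded geometric genus.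

Proof. The criterion is the one of `MP_89bcae_ag.AlmostAllThreeTorsion`, with the point `P` for the
factor `p`; the factor `q` is `b / p`. The local models: `q ≡ ± t ^ N + p₀` with `N` its generic degree
(three cases), and `Δ = 27 (t ^ (3 r) - f (f + 1 + 3 t ^ r))` for `a = 3 t ^ r`, `g = -1`, `p = f`, with `f = p₀`
(Eisenstein) and `f = p₀ t` (an edge of length `3 r - 1`). For (2): if the root of an irreducible
polynomial is a root of unity, then the norms of the first and the last coefficient are equal up to
sign, which is excluded for almost all parameters.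
-/

namespace Pool.Agent.Results.MP_1bad5e_ag.AlmostAllInfiniteOrder

open Polynomial NumberField Pool.Agent.TH115.GD Pool.Agent.R939.EI Pool.Agent.Helper70K9.TN

theorem result {k k' K F : Type} [Field k] [NumberField k] [Field k'] [Algebra k k'] [Field K]
    [Algebra k[X] K] [Field F] [Algebra k'[X] F] [IsFractionRing k'[X] F] [Algebra K F]
    (hT : IsTower k k' K F) {J : Type} [Fintype J] (B : Module.Basis J ℤ (𝓞 k)) {r m n : ℕ}
    (hr : 2 ≤ r) (hm1 : 1 ≤ m) (hm3 : m ≠ 3) (hm : m + max m (max (3 * n) (r + n)) ≤ 3 * r)
    {η : ℝ} (hη : 0 < η) :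
    ∃ H0 : ℕ, ∀ H : ℕ, H0 ≤ H →
      (({x : (Fin (r + 1) → 𝓞 k) × (Fin (m + 1) → 𝓞 k) × (Fin (n + 1) → 𝓞 k) |
        ((∀ j t, |B.repr (x.1 j) t| ≤ (H : ℤ)) ∧ (∀ j t, |B.repr (x.2.1 j) t| ≤ (H : ℤ)) ∧
          ∀ j t, |B.repr (x.2.2 j) t| ≤ (H : ℤ)) ∧
        ¬ RankCovers3 k' K F (polA fun j => algebraMap (𝓞 k) k (x.1 j))
          (polA fun j => algebraMap (𝓞 k) k (x.2.1 j))
          (polA fun j => algebraMap (𝓞 k) k (x.2.2 j))}.ncard : ℕ) : ℝ) ≤
        η * (2 * H + 1) ^ (Fintype.card J * (r + 1 + (m + 1) + (n + 1))) :=
  almost_rank B hT hr hm1 hm3 hm hη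

end Pool.Agent.Results.MP_1bad5e_ag.AlmostAllInfiniteOrder
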