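import Mathlib
import Pool.Agent.TH115.GD.Defs
import Pool.Agent.R939.EI.Den2
import Pool.Agent.Helper70K9.R5.Alg
import Pool.Agent.Helper70K9.R5.Cov
import Pool.Agent.Helper70K9.R5.Alm

/-!
# The Tate conjecture at 5 for almost all surfaces with sections of order five and infinite order

Let `k` be a number field, `K = k(t)`, `F = k'(t)` with `k'` a separable closure of `k`. The pairs of
an elliptic curve with a point of order five and a further point `Q` are parametrized by the plane:
for `u`, `w` put `x = u² + u - w`, `γ = u³ - (u - 1) w`, and

  `E : y² + (1 - b) x y - b y = x³ - b x²`,  `b = w (u² + u - w) / γ`,  `Q = (x, u x)`.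

`(0, 0)` has order five, and the discriminant of `E` is `b⁵ (b² - 11 b - 1)`. For polynomials `u`, `w`
of degree `d` this is an elliptic surface over the projective line of geometric genus `3 d - 1`, and
it is geometrically simply connected. `TateAt 5` says that all the classes in `V₅ Sel(E / F)` which
are fixed by the Galois group of `k` come from `E(K)`: the Tate conjecture for divisors at the
prime 5 on this surface.

Fix `d ≥ 3`, not divisible by five. Let `u`, `w` of degree at most `d` run through the polynomials
whose coefficients are integers of `k` with coordinates between `-H` and `H`.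

Theorem. For all `(u, w)`, with the exception of a proportion which tends to zero if `H` tends to
infinity, the Tate conjecture at 5 holds, and `Q` has infinite order, for the pullbacks by `t ↦ h(t)`
(1) for ALL polynomials `h` over `k` of degree prime to ten such that `w(h(t))`, `x(h(t))` and
`γ(h(t))` are irreducible over `k` and `(w x - e γ)(h(t))` is irreducible over `k(e)` for the roots
`e` of `X² - 11 X - 1`;
(2) for all `h = tᴹ` with `M` prime to some `N ≠ 0` depending on `(u, w)`.

Proof. Descent by the isogeny of degree five (`MP_89bcae_ag.FiveTorsionSection`): over `k(ζ₅)` there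
are the three places `w`, `x`, `γ` with fibres of type `I₅` and the two places `w x - e γ` with
fibres `I₁`, so that the Selmer group has at most one class besides the one of `(0, 0)`, and `Q`
gives it. The three polynomials and `w x - e γ` are irreducible over `k(ζ₅)` for almost all `(u, w)`:
for `w x - e γ` the product `β² - 11 β γ - γ²` of the two conjugates has rational coefficients, and
its Newton polygons at the primes `p` for `u = t ^ d`, `w = p` and `w = p t` exclude factors over
`k(e)` and its quadratic extensions; a resultant excludes roots of unity.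
-/

namespace Pool.Agent.Results.MP_1bad5e_ag.AlmostAllTwoSections

open Polynomial NumberField Pool.Agent.TH115.GD Pool.Agent.R939.EI Pool.Agent.Helper70K9.R5

theorem result {k k' K F : Type} [Field k] [NumberField k] [Field k'] [Algebra k k'] [Field K]
    [Algebra k[X] K] [Field F] [Algebra k'[X] F] [IsFractionRing k'[X] F] [Algebra K F]
    (hT : IsTower k k' K F) {J : Type} [Fintype J] (B : Module.Basis J ℤ (𝓞 k)) {d : ℕ}
    (hd : 3 ≤ d) (h5 : ¬ 5 ∣ d) {η : ℝ} (hη : 0 < η) :
    ∃ H0 : ℕ, ∀ H : ℕ, H0 ≤ H →
      (({x : (Fin (d + 1) → 𝓞 k) × (Fin (d + 1) → 𝓞 k) |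
        ((∀ j t, |B.repr (x.1 j) t| ≤ (H : ℤ)) ∧ ∀ j t, |B.repr (x.2 j) t| ≤ (H : ℤ)) ∧
        ¬ RankCovers5 k' K F (polA fun j => algebraMap (𝓞 k) k (x.1 j))
          (polA fun j => algebraMap (𝓞 k) k (x.2 j))}.ncard : ℕ) : ℝ) ≤
        η * (2 * H + 1) ^ (Fintype.card J * (2 * (d + 1))) :=
  almost_w hT B hd h5 hη

end Pool.Agent.Results.MP_1bad5e_ag.AlmostAllTwoSections
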