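import Mathlib
import Pool.Agent.TH115.GD.Defs
import Pool.Agent.Helper23K9.Q5.Dns

/-!
# The Tate conjecture at 5 for quadratic twists of elliptic surfaces with a section of order five

Let `k` be a field of characteristic different from 2 and 5 (for example finitely generated over its
prime field), `k'` a separable closure, `K = k(t)`, `F = k'(t)`, and

`E = E_b : y² + (1 - b) x y - b y = x³ - b x²`,  `b = β / γ`,

with coprime polynomials `β`, `γ` over `k`, not both constant. Every elliptic curve over `K` with
nonconstant `j` and a rational point of order five is of this form. The roots of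
`bad = β γ (β² - 11 β γ - γ²)` are the finite points at which `E` has bad reduction. For `c ≠ 0` and
`t₀` in `k` let `E⁽ᵈ⁾` be the quadratic twist of `E` by `d = c (t - t₀)` (`twl`). It has no rational
point of order five; over the projective line it defines an elliptic surface, which has in general the
fibres of `E` and one fibre `I₀*` at `t₀` and one at infinity. These surfaces are geometrically simply
connected.

`Tate0` says: the Tate conjecture at 5 holds for this surface (`TateAt 5`: all the classes in
`V₅ Sel(E⁽ᵈ⁾ / F)` which are fixed by the Galois group of `k` come from `E⁽ᵈ⁾(K)`), and multiplication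
by five is bijective on `E⁽ᵈ⁾(K)` (for finitely generated `k`, this means that the rank is zero, as
`E⁽ᵈ⁾(K)` is finitely generated). So `V₅ Sel(E⁽ᵈ⁾ / F)` has no nonzero classes fixed by the Galois
group of `k`.

Theorem.
(1) A criterion. Let `z` be a primitive fifth root of unity, and suppose that the irreducible factors
of `bad` are separable. If for all the roots `θ ≠ t₀` of `bad` in `k'` the number `c (θ - t₀)` is not a
square in the field `k(z, θ)`, then `Tate0` holds for `E⁽ᵈ⁾`.
(2) Let `k` be a number field. For a given `E` and all integers `t₀` of `k`, with the exception of a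
proportion which tends to zero if the bound `H` of the coordinates tends to infinity, `Tate0` holds
for the twists by `c (t - t₀)` for all the constants `c ≠ 0` in `k` at the same time such that
`c (θ - t₀)` is not a square in `k(z)` for the roots `θ ≠ t₀` of `bad` in `k` (`AllC`; for all `c ≠ 0` if
`bad` has no roots in `k`).
(3) For a given `E` over the number field `k` and a given constant `c ≠ 0`, `Tate0` holds for the twist
by `c (t - t₀)` for all integers `t₀` of `k` with the exception of a proportion which tends to zero.

There is no condition on `E` in (2) and (3), so the geometric genus is not bounded.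

Proof. Over the quadratic extension `F(√d) = k'(s)`, `s² = c (t - t₀)`, which is again a field of
rational functions, `E⁽ᵈ⁾` becomes `E`. A class of order five is given over `k'(s)` by two Kummer
characters (the second one, if the first one vanishes) on which the automorphism `s ↦ - s` acts by
the sign. They are unramified outside of the points over the roots of `bad`. The points over `θ` are
`s = ρ` and `s = - ρ`, `ρ² = c (θ - t₀)`, and by the condition there is an automorphism of `k'` over
`k(z, θ)` with `ρ ↦ - ρ`; together with `s ↦ - s` it fixes the point, but it changes the sign of the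
character. So the character is unramified everywhere and vanishes, and the classes are coboundaries of
points of order five. (2): otherwise `(θ - t₀) (θ' - t₀)` is a square in a given number field for two
different conjugate roots, which by the sieve happens for 0 percent of the `t₀`.
-/

namespace Pool.Agent.Results.MP_1bad5e_ag.LinearTwistsFive

open Polynomial NumberField Pool.Agent.TH115.GD Pool.Agent.Helper7K9.T3 Pool.Agent.Helper23K9.T5
  Pool.Agent.Helper23K9.Q5

theorem result :
    (∀ {k k' K F : Type} [Field k] [Field k'] [Algebra k k'] [Field K] [Algebra k[X] K] [Field F]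
      [Algebra k'[X] F] [IsFractionRing k'[X] F] [Algebra K F] (_ : IsTower k k' K F)
      (_ : (2 : k) ≠ 0) (_ : (5 : k) ≠ 0) (β γ : k[X]) (_ : IsCoprime β γ)
      (_ : β.natDegree ≠ 0 ∨ γ.natDegree ≠ 0)
      (_ : ∀ π : k[X], Irreducible π → π ∣ bad β γ → π.Separable) (z : k') (_ : IsZ z)
      (c t₀ : k) (_ : c ≠ 0), (∀ θ : k', θ ≠ algebraMap k k' t₀ → aeval θ (bad β γ) = 0 →
        ∀ x ∈ IntermediateField.adjoin k {z, θ},
          x ^ 2 ≠ algebraMap k k' c * (θ - algebraMap k k' t₀)) → Tate0 k' K F β γ c t₀) ∧
    (∀ {k k' K F : Type} [Field k] [NumberField k] [Field k'] [Algebra k k'] [Field K]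
      [Algebra k[X] K] [Field F] [Algebra k'[X] F] [IsFractionRing k'[X] F] [Algebra K F]
      (_ : IsTower k k' K F) {J : Type} [Fintype J] (B : Module.Basis J ℤ (𝓞 k)) (β γ : k[X])
      (_ : IsCoprime β γ) (_ : β.natDegree ≠ 0 ∨ γ.natDegree ≠ 0) (η : ℝ) (_ : 0 < η),
      (∀ z : k', IsZ z → ∃ H₀ : ℕ, ∀ H : ℕ, H₀ ≤ H →
        (({t₀ : 𝓞 k | (∀ j, |B.repr t₀ j| ≤ (H : ℤ)) ∧
          ¬ AllC k' K F β γ z (algebraMap (𝓞 k) k t₀)}.ncard : ℕ) : ℝ) ≤
          η * (2 * H + 1) ^ Fintype.card J) ∧
      ∀ c : k, c ≠ 0 → ∃ H₀ : ℕ, ∀ H : ℕ, H₀ ≤ H →
        (({t₀ : 𝓞 k | (∀ j, |B.repr t₀ j| ≤ (H : ℤ)) ∧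
          ¬ Tate0 k' K F β γ c (algebraMap (𝓞 k) k t₀)}.ncard : ℕ) : ℝ) ≤
          η * (2 * H + 1) ^ Fintype.card J) :=
  ⟨fun hT h2 h5 _ _ hcop hnc hsep _ hz _ _ hc hb => crit hT h2 h5 hcop hnc hsep hc hz hb,
    fun hT _ _ B _ _ hcop hnc _ hη => ⟨fun _ hz => dens_all' B hT hcop hnc hz hη,
      fun _ hc => dens_fixed' B hT hcop hnc hc hη⟩⟩

end Pool.Agent.Results.MP_1bad5e_ag.LinearTwistsFive
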